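import Pool.Agent.H364R2.Mult

open MvPolynomial

set_option autoImplicit false

namespace Pool.Agent.H301R2.ZG

open Pool.Agent.H364R2

variable {σ : Type} {B : Set σ}

lemma map_eq_of_le {P P' : Ideal (MvPolynomial σ ℂ)} (hP : P.IsPrime) (hP' : P'.IsPrime)
    (hle : P ≤ P') (hB : Indep P B) (hB' : Indep P' B) (hd : ∀ j ∉ B, ¬ Indep P (insert j B)) :
    P.map (phi B : MvPolynomial σ ℂ →+* MvPolynomial {j // j ∉ B} (FractionRing (MvPolynomial B ℂ))) = P'.map (phi B : MvPolynomial σ ℂ →+* MvPolynomial {j // j ∉ B} (FractionRing (MvPolynomial B ℂ))) := by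
  have h1 := maximal_map hP hB hd
  have h2 := (prime_map hP' hB').ne_top
  exact h1.eq_of_le h2 (Ideal.map_mono hle)

theorem eq_of_le {P P' : Ideal (MvPolynomial σ ℂ)} (hP : P.IsPrime) (hP' : P'.IsPrime)
    (hle : P ≤ P') (hB' : Indep P' B) (hd : ∀ j ∉ B, ¬ Indep P (insert j B)) :
    P = P' := by
  have hB : Indep P B := fun f hf hfP => hB' f hf (hle hfP)
  have h4 := map_eq_of_le hP hP' hle hB hB' hd
  have e1 := comap_map_phi hP hB
  have e2 := comap_map_phi hP' hB'
  calc P = (P.map (phi B : MvPolynomial σ ℂ →+* MvPolynomial {j // j ∉ B} (FractionRing (MvPolynomial B ℂ)))).comap (phi B : MvPolynomial σ ℂ →+* MvPolynomial {j // j ∉ B} (FractionRing (MvPolynomial B ℂ))) :=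
        e1.symm
    _ = (P'.map (phi B : MvPolynomial σ ℂ →+* MvPolynomial {j // j ∉ B} (FractionRing (MvPolynomial B ℂ)))).comap (phi B : MvPolynomial σ ℂ →+* MvPolynomial {j // j ∉ B} (FractionRing (MvPolynomial B ℂ))) := by
        rw [h4]
    _ = P' := e2

end Pool.Agent.H301R2.ZG
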