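import Pool.Agent.H301R2.ZG.Group
import Pool.Agent.H335R2.T6
import Pool.Agent.H335R2.T236

open MvPolynomial

set_option autoImplicit false

namespace Pool.Agent.H301R2.ZG

open Pool.Agent.H364R2

variable {σ : Type} (add : σ → Bool)

lemma der_addw (w w' : σ → ℂ) (f : MvPolynomial σ ℂ) :
    der add (w + w') f = der add w f + der add w' f := by
  have e : w + w' = fun j => ∑ k, (![1, 1] : Fin 2 → ℂ) k * (![w, w'] : Fin 2 → σ → ℂ) k j := by
    funext j
    simp [Fin.sum_univ_two]
  rw [e, Pool.Agent.H335R2.der_sum, Fin.sum_univ_two]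
  simp only [Matrix.cons_val_zero, Matrix.cons_val_one, C_1, one_mul]

lemma der_smulw (c : ℂ) (w : σ → ℂ) (f : MvPolynomial σ ℂ) :
    der add (c • w) f = C c * der add w f := by
  have e : c • w = fun j => ∑ k, (![c] : Fin 1 → ℂ) k * (![w] : Fin 1 → σ → ℂ) k j := by
    funext j
    simp
  rw [e, Pool.Agent.H335R2.der_sum, Fin.sum_univ_one]
  simp only [Matrix.cons_val_zero]

/-- the tangent vectors stabilising `P` -/
def stabW (P : Ideal (MvPolynomial σ ℂ)) : Submodule ℂ (σ → ℂ) where
  carrier := {w | ∀ f ∈ P, der add w f ∈ P}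
  zero_mem' := by
    intro f _
    have : der add (0 : σ → ℂ) f = 0 := by
      have := der_smulw add 0 (0 : σ → ℂ) f
      simpa using this
    rw [this]; exact P.zero_mem
  add_mem' := by
    intro w w' hw hw' f hf
    rw [der_addw]
    exact P.add_mem (hw f hf) (hw' f hf)
  smul_mem' := by
    intro c w hw f hf
    rw [der_smulw]
    exact P.mul_mem_left _ (hw f hf)

lemma mem_stabW {P : Ideal (MvPolynomial σ ℂ)} {w : σ → ℂ} :
    w ∈ stabW add P ↔ ∀ f ∈ P, der add w f ∈ P := Iff.rfl

lemma indep_extend [Fintype σ] [DecidableEq σ] {P : Ideal (MvPolynomial σ ℂ)} (hP : P.IsPrime)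
    {B1 : Finset σ} (hB1 : Indep P (B1 : Set σ)) :
    ∀ (n : ℕ) (E : Finset σ), Indep P (E : Set σ) → B1.card = E.card + n →
    ∃ B : Finset σ, E ⊆ B ∧ B.card = B1.card ∧ Indep P (B : Set σ) := by
  intro n
  induction n with
  | zero => intro E hE h; exact ⟨E, Finset.Subset.refl _, by omega, hE⟩
  | succ n ih =>
    intro E hE h
    obtain ⟨j, hj1, hj2, hj3⟩ := Pool.Agent.H335R2.exists_insert hP hE hB1 (by omega)
    obtain ⟨B, h1, h2, h3⟩ := ih (insert j E) (by rw [Finset.coe_insert]; exact hj3) (by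
      rw [Finset.card_insert_of_notMem hj2]; omega)
    exact ⟨B, (Finset.subset_insert j E).trans h1, h2, h3⟩

/-- **subgroup version of the zero estimate** -/
theorem zero_estimate_grp [Fintype σ] [DecidableEq σ] {l : ℕ} (W : Fin l → σ → ℂ)
    (Γ₁ : Finset (σ → ℂ)) (T : ℕ)
    (F : MvPolynomial σ ℂ) (L : σ → ℕ) (hL : ∀ j, 1 ≤ L j)
    (hΓ : ∀ g ∈ Γ₁, IsG add g) (hF0 : F ≠ 0) (hF : F ∈ box ℂ L 1)
    (hvan : ∀ (ks : List (Fin l)) (gs : List (σ → ℂ)), ks.length ≤ Fintype.card σ * T →
      gs.length ≤ Fintype.card σ → (∀ g ∈ gs, g ∈ Γ₁) →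
      eval (prodG add gs) (derIter add W ks F) = 0) :
    ∃ P : Ideal (MvPolynomial σ ℂ), GPrime add P ∧ P ≠ ⊥ ∧ gone add ∈ ZP add P ∧
      (∀ z ∈ ZP add P, trI add z P = P) ∧
      (∀ v ∈ ZP add P, ∀ v' ∈ ZP add P, trI add (gmul add v' (ginv add v)) P = P) ∧
      (∀ E : Finset σ, Indep P (E : Set σ) →
        ∀ Δ : Finset (σ → ℂ), Δ ⊆ Γ₁ →
        (∀ g ∈ Δ, ∀ g' ∈ Δ, trI add g P = trI add g' P → g = g') →
        ∀ (l' : ℕ) (W' : Fin l' → σ → ℂ), (∀ k, W' k ∈ Submodule.span ℂ (Set.range W)) →
        (∀ c : Fin l' → ℂ, (∀ f ∈ P, der add (fun j => ∑ k, c k * W' k j) f ∈ P) → c = 0) →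
        Δ.card * (T / l' + 1) ^ l' ≤
          2 ^ ((Fintype.card σ + 1) * Fintype.card σ) * ∏ j ∈ Finset.univ \ E, L j) := by
  classical
  obtain ⟨Q, β, hQ, hβ, hone, hstab, ⟨B1, hB1c, hB1⟩, hmax, hbound⟩ :=
    zero_estimate_group add W Γ₁ T F L hL hΓ hF0 hF hvan
  have hhom : ∀ v ∈ ZP add Q, ∀ v' ∈ ZP add Q, trI add (gmul add v' (ginv add v)) Q = Q := by
    intro v hv v' hv'
    have h1 : trI add (ginv add v) Q = Q := by
      conv_lhs => rw [← hstab v hv]
      rw [trI_trI, ginv_gmul add hv.1, trI_gone]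
    rw [← trI_trI, h1, hstab v' hv']
  refine ⟨Q, hQ, ?_, hone, hstab, hhom, ?_⟩
  · rintro rfl
    have : Indep (⊥ : Ideal (MvPolynomial σ ℂ)) ((Finset.univ : Finset σ) : Set σ) :=
      fun f _ hf => hf
    have h1 := hmax Finset.univ this
    rw [Finset.card_univ] at h1
    omega
  · intro E hE Δ hΔ hdist l' W' hW' hW'0
    obtain ⟨B, hEB, hBc, hB⟩ := indep_extend hQ.1 hB1 (B1.card - E.card) E hE (by
      have := hmax E hE; omega)
    -- choose a subfamily of `W`
    let π := (stabW add Q).mkQ
    have hli' : LinearIndependent ℂ (fun k => π (W' k)) := by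
      rw [Fintype.linearIndependent_iff]
      intro c hc
      have h1 := hW'0 c (by
        have h2 : (∑ k, c k • W' k) ∈ stabW add Q := by
          rw [← Submodule.ker_mkQ (stabW add Q), LinearMap.mem_ker, map_sum]
          rw [← hc]
          apply Finset.sum_congr rfl
          intro k _
          rw [map_smul]
        have h3 : (fun j => ∑ k, c k * W' k j) = ∑ k, c k • W' k := by
          funext j
          simp [Finset.sum_apply]
        rw [h3]
        exact h2)
      intro k
      exact congrFun h1 k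
    obtain ⟨κ, a, ha, hsp, hli⟩ := exists_linearIndependent' ℂ (fun k => π (W k))
    have hfin : Finite κ := hli.finite
    haveI : Fintype κ := Fintype.ofFinite κ
    have hcard : l' ≤ Fintype.card κ := by
      have h1 : Fintype.card κ = Module.finrank ℂ (Submodule.span ℂ (Set.range (fun k => π (W k)))) := by
        rw [← hsp, finrank_span_eq_card hli]
      rw [h1]
      have hmem : ∀ k, π (W' k) ∈ Submodule.span ℂ (Set.range (fun k => π (W k))) := by
        intro k
        have h2 : Submodule.span ℂ (Set.range (fun k => π (W k))) =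
            (Submodule.span ℂ (Set.range W)).map π := by
          rw [Submodule.map_span, ← Set.range_comp]
          rfl
        rw [h2]
        exact Submodule.mem_map_of_mem (hW' k)
      have hli2 : LinearIndependent ℂ (fun k => (⟨_, hmem k⟩ :
          Submodule.span ℂ (Set.range (fun k => π (W k))))) := by
        apply LinearIndependent.of_comp (Submodule.subtype _)
        exact hli'
      have := hli2.fintype_card_le_finrank
      rwa [Fintype.card_fin] at this
    obtain ⟨emb⟩ : Nonempty (Fin l' ↪ κ) :=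
      Function.Embedding.nonempty_of_card_le (by rw [Fintype.card_fin]; exact hcard)
    let e : Fin l' → Fin l := fun k => a (emb k)
    have hlie : LinearIndependent ℂ (fun k => π (W (e k))) := hli.comp _ emb.injective
    obtain ⟨f, hf1, hf2, hf3⟩ := Pool.Agent.H335R2.exists_transversal add hQ
      (fun f hf => mem_of_eval add hQ f (fun z hz => hf z hz)) (fun v hv v' hv' => hhom v hv v' hv')
      (fun k => W (e k)) (by
        intro c hc
        have h3 : (fun j => ∑ k, c k * W (e k) j) = ∑ k, c k • W (e k) := by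
          funext j
          simp [Finset.sum_apply]
        rw [h3] at hc
        have h4 : π (∑ k, c k • W (e k)) = 0 := by
          rw [← LinearMap.mem_ker, Submodule.ker_mkQ]
          exact hc
        rw [map_sum] at h4
        simp only [map_smul] at h4
        funext k
        exact (Fintype.linearIndependent_iff.mp hlie) c h4 k)
    have hb := hbound B (hBc.trans hB1c) hB Δ hΔ hdist l' e f hf1 hf2 hf3
    refine hb.trans ?_
    apply Nat.mul_le_mul
    · apply Nat.pow_le_pow_right (by norm_num)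
      exact Nat.mul_le_mul (by omega) (by omega)
    · apply Finset.prod_le_prod_of_subset_of_one_le'
      · intro j hj
        rw [Finset.mem_sdiff] at hj ⊢
        exact ⟨hj.1, fun h => hj.2 (hEB h)⟩
      · intro j _ _
        exact hL j

end Pool.Agent.H301R2.ZG
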