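import Mathlib

set_option autoImplicit false

namespace Pool.Agent.H301R2.ZG

open Module

section

variable {K : Type*} [Field K] {ι : Type*} [Fintype ι]

/-- a subspace of `K^ι` is determined by `dim` many coordinates -/
theorem exists_coords [DecidableEq ι] (U : Submodule K (ι → K)) :
    ∃ C : Finset ι, C.card = finrank K U ∧ ∀ u ∈ U, (∀ j ∈ C, u j = 0) → u = 0 := by
  classical
  let φ : ι → Module.Dual K U := fun j => (LinearMap.proj j).comp U.subtype
  have hspan : Submodule.span K (Set.range φ) = ⊤ := by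
    by_contra hne
    obtain ⟨f, hf0, hf⟩ := Submodule.exists_le_ker_of_lt_top (Submodule.span K (Set.range φ))
      (lt_top_iff_ne_top.mpr hne)
    obtain ⟨u, hu⟩ := (Module.evalEquiv K U).surjective f
    apply hf0
    have h1 : ∀ j, (u : ι → K) j = 0 := by
      intro j
      have h2 : f (φ j) = 0 := hf (Submodule.subset_span ⟨j, rfl⟩)
      rw [← hu] at h2
      exact h2
    have h3 : u = 0 := by
      apply Subtype.ext
      funext j
      exact h1 j
    rw [← hu, h3, map_zero]
  obtain ⟨b, hb1, hb2, hb3⟩ := exists_linearIndependent K (Set.range φ)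
  rw [hspan] at hb2
  have hbspan : ⊤ ≤ Submodule.span K (Set.range ((↑) : b → Module.Dual K U)) := by
    rw [Subtype.range_coe, hb2]
  let B : Module.Basis b K (Module.Dual K U) := Module.Basis.mk hb3 hbspan
  have hfin : Finite b := hb3.finite
  haveI : Fintype b := Fintype.ofFinite b
  have hcard : Fintype.card b = finrank K U := by
    rw [← Module.finrank_eq_card_basis B]
    exact Subspace.dual_finrank_eq
  choose g hg using fun x : b => hb1 x.2
  have hginj : Function.Injective g := by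
    intro x y hxy
    apply Subtype.ext
    rw [← hg x, ← hg y, hxy]
  refine ⟨Finset.univ.image g, ?_, ?_⟩
  · rw [Finset.card_image_of_injective _ hginj, Finset.card_univ, hcard]
  · intro u hu hj
    have h1 : ∀ ψ ∈ Submodule.span K b, ψ ⟨u, hu⟩ = 0 := by
      intro ψ hψ
      refine Submodule.span_induction (p := fun ψ _ => ψ ⟨u, hu⟩ = 0) ?_ ?_ ?_ ?_ hψ
      · intro x hx
        have h2 := hg ⟨x, hx⟩
        have h3 := hj (g ⟨x, hx⟩) (Finset.mem_image_of_mem _ (Finset.mem_univ _))
        have h4 : φ (g ⟨x, hx⟩) ⟨u, hu⟩ = u (g ⟨x, hx⟩) := rfl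
        rw [h2] at h4
        simp only [] at h4
        rw [h4, h3]
      · simp
      · intro x y _ _ hx hy
        simp [hx, hy]
      · intro c x _ hx
        simp [hx]
    funext j
    have h5 : φ j ∈ Submodule.span K b := by rw [hb2]; trivial
    exact h1 _ h5

/-- dual vectors to a minimal set of coordinates -/
theorem exists_dual [DecidableEq ι] (U : Submodule K (ι → K)) :
    ∃ (e : Fin (finrank K U) → ι) (v : Fin (finrank K U) → (ι → K)), (∀ k, v k ∈ U) ∧
      ∀ k k', v k' (e k) = if k = k' then 1 else 0 := by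
  classical
  obtain ⟨C, hC, hinj⟩ := exists_coords U
  let r : U →ₗ[K] (C → K) := LinearMap.pi (fun j => (LinearMap.proj (j : ι)).comp U.subtype)
  have hr : Function.Injective r := by
    rw [← LinearMap.ker_eq_bot, LinearMap.ker_eq_bot']
    intro u hu
    apply Subtype.ext
    apply hinj u u.2
    intro j hj
    exact congrFun hu ⟨j, hj⟩
  have hdim : finrank K U = finrank K (C → K) := by
    rw [Module.finrank_fintype_fun_eq_card, Fintype.card_coe, hC]
  have hsurj : Function.Surjective r :=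
    (LinearMap.injective_iff_surjective_of_finrank_eq_finrank hdim).mp hr
  let e0 : Fin (finrank K U) ≃ C := (Finset.equivFinOfCardEq hC).symm
  choose g hg using hsurj
  refine ⟨fun k => (e0 k : ι), fun k => (g (Pi.single (e0 k) 1) : ι → K), fun k => Subtype.coe_prop _,
    fun k k' => ?_⟩
  have h1 := congrFun (hg (Pi.single (e0 k') 1)) (e0 k)
  have h2 : r (g (Pi.single (e0 k') 1)) (e0 k) = (g (Pi.single (e0 k') 1) : ι → K) (e0 k : ι) := rfl
  rw [h2] at h1
  beta_reduce
  rw [h1, Pi.single_apply]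
  by_cases h : k = k'
  · simp [h]
  · have : e0 k ≠ e0 k' := fun h' => h (e0.injective h')
    simp [h, this]

/-- if restriction to `C` is injective on `U`, then `dim U ≤ |C|` -/
theorem finrank_le_of_inj [DecidableEq ι] (U : Submodule K (ι → K)) (C : Finset ι)
    (h : ∀ u ∈ U, (∀ j ∈ C, u j = 0) → u = 0) : finrank K U ≤ C.card := by
  classical
  let r : U →ₗ[K] (C → K) := LinearMap.pi (fun j => (LinearMap.proj (j : ι)).comp U.subtype)
  have hr : Function.Injective r := by
    rw [← LinearMap.ker_eq_bot, LinearMap.ker_eq_bot']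
    intro u hu
    apply Subtype.ext
    apply h u u.2
    intro j hj
    exact congrFun hu ⟨j, hj⟩
  have := LinearMap.finrank_le_finrank_of_injective hr
  rwa [Module.finrank_fintype_fun_eq_card, Fintype.card_coe] at this

/-- the coordinates can be chosen in the support -/
theorem exists_coords_supp [DecidableEq ι] (U : Submodule K (ι → K)) (S : Set ι)
    (hS : ∀ u ∈ U, ∀ j ∉ S, u j = 0) :
    ∃ C : Finset ι, C.card = finrank K U ∧ (∀ j ∈ C, j ∈ S) ∧
      ∀ u ∈ U, (∀ j ∈ C, u j = 0) → u = 0 := by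
  classical
  obtain ⟨C, hC, hinj⟩ := exists_coords U
  refine ⟨C, hC, ?_, hinj⟩
  intro j hj
  by_contra hjS
  have h1 := finrank_le_of_inj U (C.erase j) (by
    intro u hu h
    apply hinj u hu
    intro i hi
    by_cases hij : i = j
    · rw [hij]; exact hS u hu j hjS
    · exact h i (Finset.mem_erase.mpr ⟨hij, hi⟩))
  rw [Finset.card_erase_of_mem hj, hC] at h1
  have : 0 < C.card := Finset.card_pos.mpr ⟨j, hj⟩
  omega

end

section rat

variable {ι : Type*} [Fintype ι]

/-- rational span of a subgroup of `ℤ^ι` -/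
def ratSpan (R : AddSubgroup (ι → ℤ)) : Submodule ℚ (ι → ℚ) :=
  Submodule.span ℚ {v | ∃ ρ ∈ R, v = fun j => ((ρ j : ℤ) : ℚ)}

/-- complex span of a subgroup of `ℤ^ι` -/
def cSpan (R : AddSubgroup (ι → ℤ)) : Submodule ℂ (ι → ℂ) :=
  Submodule.span ℂ {v | ∃ ρ ∈ R, v = fun j => ((ρ j : ℤ) : ℂ)}

omit [Fintype ι] in
theorem mem_ratSpan {R : AddSubgroup (ι → ℤ)} {v : ι → ℚ} (hv : v ∈ ratSpan R) :
    ∃ N : ℕ, 0 < N ∧ ∃ ρ ∈ R, ∀ j, ((ρ j : ℤ) : ℚ) = N * v j := by
  unfold ratSpan at hv
  refine Submodule.span_induction (p := fun v _ => ∃ N : ℕ, 0 < N ∧ ∃ ρ ∈ R,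
    ∀ j, ((ρ j : ℤ) : ℚ) = N * v j) ?_ ?_ ?_ ?_ hv
  · rintro _ ⟨ρ, hρ, rfl⟩
    exact ⟨1, one_pos, ρ, hρ, by simp⟩
  · exact ⟨1, one_pos, 0, R.zero_mem, by simp⟩
  · rintro x y _ _ ⟨N, hN, ρ, hρ, h⟩ ⟨N', hN', ρ', hρ', h'⟩
    refine ⟨N * N', Nat.mul_pos hN hN', (N' : ℤ) • ρ + (N : ℤ) • ρ',
      R.add_mem (R.zsmul_mem hρ _) (R.zsmul_mem hρ' _), fun j => ?_⟩
    simp only [Pi.add_apply, Pi.smul_apply, smul_eq_mul]
    push_cast
    rw [h j, h' j]
    ring
  · rintro c x _ ⟨N, hN, ρ, hρ, h⟩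
    refine ⟨N * c.den, Nat.mul_pos hN c.den_pos, c.num • ρ, R.zsmul_mem hρ _, fun j => ?_⟩
    simp only [Pi.smul_apply, smul_eq_mul]
    push_cast
    rw [h j]
    have hc : (c.num : ℚ) = c * c.den := by
      rw [Rat.mul_den_eq_num]
    rw [hc]; ring

theorem finrank_cSpan [DecidableEq ι] (R : AddSubgroup (ι → ℤ)) :
    finrank ℚ (ratSpan R) ≤ finrank ℂ (cSpan R) := by
  classical
  obtain ⟨e, v, hv, hev⟩ := exists_dual (ratSpan R)
  -- cast the dual vectors
  have hmem : ∀ k, (fun j => ((v k j : ℚ) : ℂ)) ∈ cSpan R := by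
    intro k
    obtain ⟨N, hN, ρ, hρ, h⟩ := mem_ratSpan (hv k)
    have h1 : (fun j => ((v k j : ℚ) : ℂ)) = ((N : ℂ)⁻¹) • (fun j => ((ρ j : ℤ) : ℂ)) := by
      funext j
      have h2 : ((ρ j : ℤ) : ℂ) = (N : ℂ) * ((v k j : ℚ) : ℂ) := by
        have := congrArg (fun q : ℚ => (q : ℂ)) (h j)
        push_cast at this
        simpa using this
      have hN' : (N : ℂ) ≠ 0 := by exact_mod_cast hN.ne'
      simp only [Pi.smul_apply, smul_eq_mul]
      rw [h2, inv_mul_cancel_left₀ hN']
    rw [h1]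
    exact Submodule.smul_mem _ _ (Submodule.subset_span ⟨ρ, hρ, rfl⟩)
  have hli : LinearIndependent ℂ (fun k => (⟨_, hmem k⟩ : cSpan R)) := by
    rw [Fintype.linearIndependent_iff]
    intro c hc k
    have h1 := congrArg (fun u : cSpan R => (u : ι → ℂ) (e k)) hc
    simp only [Submodule.coe_sum, Submodule.coe_smul, Finset.sum_apply, Pi.smul_apply, smul_eq_mul,
      Submodule.coe_zero, Pi.zero_apply] at h1
    rw [Finset.sum_eq_single k] at h1
    · simpa [hev] using h1
    · intro k' _ hk'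
      simp [hev, hk'.symm]
    · intro h; exact absurd (Finset.mem_univ k) h
  have := hli.fintype_card_le_finrank
  simpa using this

end rat

end Pool.Agent.H301R2.ZG
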