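import Pool.Agent.H364R2.Pigeon
import Pool.Agent.H301R2.ZG.EqLe

open MvPolynomial

set_option autoImplicit false

namespace Pool.Agent.H301R2.ZG

open Pool.Agent.H364R2

variable {σ : Type} (add : σ → Bool)

/-- the points of `G` on the zero set of `P` -/
def ZP (P : Ideal (MvPolynomial σ ℂ)) : Set (σ → ℂ) := {z | IsG add z ∧ ∀ f ∈ P, eval z f = 0}

theorem mem_of_eval [Fintype σ] {P : Ideal (MvPolynomial σ ℂ)} (hP : GPrime add P)
    (g : MvPolynomial σ ℂ) (h : ∀ z ∈ ZP add P, eval z g = 0) : g ∈ P := by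
  classical
  haveI := hP.1
  let x : MvPolynomial σ ℂ := ∏ j, (if add j then 1 else X j)
  have hx : x ∉ P := by
    intro hx
    obtain ⟨j, -, hj⟩ := (Ideal.IsPrime.prod_mem_iff (hp := hP.1)).mp hx
    split_ifs at hj with h1
    · exact hP.1.ne_top ((Ideal.eq_top_iff_one _).mpr hj)
    · exact hP.2 j (by simpa using h1) hj
  have hxg : x * g ∈ P := by
    rw [← MvPolynomial.IsPrime.vanishingIdeal_zeroLocus (K := ℂ) P, mem_vanishingIdeal_iff]
    intro z hz
    rw [mem_zeroLocus_iff] at hz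
    have hz' : ∀ f ∈ P, eval z f = 0 := fun f hf => by
      have := hz f hf
      rwa [aeval_eq_eval] at this
    rw [aeval_eq_eval, map_mul]
    by_cases hG : IsG add z
    · rw [h z ⟨hG, hz'⟩, mul_zero]
    · unfold IsG at hG
      push Not at hG
      obtain ⟨j, hj, hj0⟩ := hG
      have : eval z x = 0 := by
        simp only [x]
        rw [map_prod]
        apply Finset.prod_eq_zero (Finset.mem_univ j)
        simp [hj, hj0]
      rw [this, zero_mul]
  exact (hP.1.mem_or_mem hxg).resolve_left hx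

theorem ZP_nonempty [Fintype σ] {P : Ideal (MvPolynomial σ ℂ)} (hP : GPrime add P) :
    (ZP add P).Nonempty := by
  by_contra hne
  rw [Set.not_nonempty_iff_eq_empty] at hne
  apply hP.1.ne_top
  rw [Ideal.eq_top_iff_one]
  apply mem_of_eval add hP
  intro z hz
  rw [hne] at hz
  exact absurd hz (Set.notMem_empty z)

theorem exists_eval_ne_zero [Fintype σ] {P : Ideal (MvPolynomial σ ℂ)} (hP : GPrime add P)
    {g : MvPolynomial σ ℂ} (hg : g ∉ P) : ∃ z ∈ ZP add P, eval z g ≠ 0 := by
  by_contra hcon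
  push Not at hcon
  exact hg (mem_of_eval add hP g hcon)

/-- the ideal of the closure of the product of the zero sets -/
def mulI (P1 P2 : Ideal (MvPolynomial σ ℂ)) : Ideal (MvPolynomial σ ℂ) where
  carrier := {f | ∀ x ∈ ZP add P1, ∀ y ∈ ZP add P2, eval (gmul add x y) f = 0}
  zero_mem' := fun x _ y _ => by simp
  add_mem' := by
    intro f g hf hg x hx y hy
    rw [map_add, hf x hx y hy, hg x hx y hy, add_zero]
  smul_mem' := by
    intro c f hf x hx y hy
    rw [smul_eq_mul, map_mul, hf x hx y hy, mul_zero]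

theorem mem_mulI {P1 P2 : Ideal (MvPolynomial σ ℂ)} {f : MvPolynomial σ ℂ} :
    f ∈ mulI add P1 P2 ↔ ∀ x ∈ ZP add P1, ∀ y ∈ ZP add P2, eval (gmul add x y) f = 0 := Iff.rfl

theorem gprime_mulI [Fintype σ] {P1 P2 : Ideal (MvPolynomial σ ℂ)} (hP1 : GPrime add P1)
    (hP2 : GPrime add P2) : GPrime add (mulI add P1 P2) := by
  obtain ⟨x0, hx0⟩ := ZP_nonempty add hP1
  obtain ⟨y0, hy0⟩ := ZP_nonempty add hP2
  refine ⟨⟨?_, ?_⟩, ?_⟩
  · intro h
    have := (Ideal.eq_top_iff_one _).mp h x0 hx0 y0 hy0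
    simp at this
  · intro f g hfg
    by_contra hcon
    push Not at hcon
    obtain ⟨hf, hg⟩ := hcon
    rw [mem_mulI] at hf hg
    push Not at hf hg
    obtain ⟨x1, hx1, y1, hy1, h1⟩ := hf
    obtain ⟨x2, hx2, y2, hy2, h2⟩ := hg
    have g1 : tr add y1 f ∉ P1 := by
      intro h
      apply h1
      rw [← eval_tr]
      exact hx1.2 _ h
    have g2 : tr add y2 g ∉ P1 := by
      intro h
      apply h2
      rw [← eval_tr]
      exact hx2.2 _ h
    have g3 : tr add y1 f * tr add y2 g ∉ P1 := fun h =>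
      (hP1.1.mem_or_mem h).elim g1 g2
    obtain ⟨x, hx, hx'⟩ := exists_eval_ne_zero add hP1 g3
    rw [map_mul] at hx'
    have e1 : eval (gmul add y1 x) f ≠ 0 := by
      rw [gmul_comm, ← eval_tr]
      exact left_ne_zero_of_mul hx'
    have e2 : eval (gmul add y2 x) g ≠ 0 := by
      rw [gmul_comm, ← eval_tr]
      exact right_ne_zero_of_mul hx'
    have g4 : tr add x f ∉ P2 := by
      intro h
      apply e1
      rw [← eval_tr]
      exact hy1.2 _ h
    have g5 : tr add x g ∉ P2 := by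
      intro h
      apply e2
      rw [← eval_tr]
      exact hy2.2 _ h
    have g6 : tr add x f * tr add x g ∉ P2 := fun h => (hP2.1.mem_or_mem h).elim g4 g5
    obtain ⟨y, hy, hy'⟩ := exists_eval_ne_zero add hP2 g6
    apply hy'
    rw [← map_mul, eval_tr, gmul_comm]
    exact hfg x hx y hy
  · intro j hj h
    have := h x0 hx0 y0 hy0
    rw [eval_X] at this
    exact isG_gmul add hx0.1 hy0.1 j hj this

theorem trI_trI (g h : σ → ℂ) (P : Ideal (MvPolynomial σ ℂ)) :
    trI add g (trI add h P) = trI add (gmul add g h) P := by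
  ext f
  rw [mem_trI, mem_trI, mem_trI, tr_tr, gmul_comm]

theorem trI_gone (P : Ideal (MvPolynomial σ ℂ)) : trI add (gone add) P = P := by
  ext f
  rw [mem_trI, tr_gone]

theorem ginv_ginv {g : σ → ℂ} : ginv add (ginv add g) = g := by
  funext j
  unfold ginv
  split_ifs <;> simp

theorem mem_ZP_trI {g : σ → ℂ} (hg : IsG add g) {P : Ideal (MvPolynomial σ ℂ)} {z : σ → ℂ}
    (hz : IsG add z) : z ∈ ZP add (trI add g P) ↔ gmul add z (ginv add g) ∈ ZP add P := by
  constructor
  · rintro ⟨h1, h2⟩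
    refine ⟨isG_gmul add h1 (isG_ginv add hg), fun f hf => ?_⟩
    have := h2 (tr add (ginv add g) f) (by
      rw [mem_trI, tr_tr_ginv add hg]; exact hf)
    rwa [eval_tr] at this
  · rintro ⟨h1, h2⟩
    refine ⟨hz, fun f hf => ?_⟩
    have := h2 (tr add g f) hf
    rwa [eval_tr, gmul_assoc, ginv_gmul add hg, gmul_gone] at this

end Pool.Agent.H301R2.ZG
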